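import Mathlib

/-!
# XV, leaves V0 and V1: the union over the maps `L → {j ≠ i}`
-/

set_option autoImplicit false

namespace Pool.Agent.Helper84.XV

/-- V0 -/
theorem prod_max_le {ι : Type*} (s : Finset ι) (a : ι → ℝ) (Z : ℝ) (hZ0 : 0 ≤ Z) (hZ1 : Z ≤ 1)
    (h0 : ∀ j ∈ s, 0 ≤ a j) (h1 : ∀ j ∈ s, a j ≤ 1) :
    ∏ j ∈ s, max (a j) Z ≤ max (∏ j ∈ s, a j) Z := by
  classical
  induction s using Finset.induction_on with
  | empty => simp
  | insert j s hj ih =>
    have h0' : ∀ j ∈ s, 0 ≤ a j := fun x hx => h0 x (Finset.mem_insert_of_mem hx)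
    have h1' : ∀ j ∈ s, a j ≤ 1 := fun x hx => h1 x (Finset.mem_insert_of_mem hx)
    have hj0 := h0 j (Finset.mem_insert_self j s)
    have hj1 := h1 j (Finset.mem_insert_self j s)
    have ih' := ih h0' h1'
    rw [Finset.prod_insert hj, Finset.prod_insert hj]
    have hm0 : 0 ≤ max (a j) Z := le_max_of_le_left hj0
    have hm1 : max (a j) Z ≤ 1 := max_le hj1 hZ1
    have hp0 : 0 ≤ ∏ j ∈ s, a j := Finset.prod_nonneg h0'
    have hp1 : ∏ j ∈ s, a j ≤ 1 := Finset.prod_le_one h0' h1'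
    refine (mul_le_mul_of_nonneg_left ih' hm0).trans ?_
    rcases le_total (∏ j ∈ s, a j) Z with h | h
    · rw [max_eq_right h]
      refine le_trans ?_ (le_max_right _ _)
      calc max (a j) Z * Z ≤ 1 * Z := mul_le_mul_of_nonneg_right hm1 hZ0
        _ = Z := one_mul Z
    · rw [max_eq_left h]
      rcases le_total (a j) Z with h2 | h2
      · rw [max_eq_right h2]
        refine le_trans ?_ (le_max_right _ _)
        calc Z * ∏ j ∈ s, a j ≤ Z * 1 := mul_le_mul_of_nonneg_left hp1 hZ0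
          _ = Z := mul_one Z
      · rw [max_eq_left h2]
        exact le_max_left _ _

/-- V1: union over the maps `a : L → {j ≠ i}`, one fixed entry `x i = x₀`. -/
theorem union_count {α : Type*} {k : ℕ} (T : Fin k → Finset α) (i : Fin k) (x₀ : α)
    (L : Finset ℕ) (hL : ∀ l ∈ L, 1 ≤ l) (P : ℕ → α → Prop) (A Z : ℝ) (hA : 0 ≤ A)
    (hZ0 : 0 ≤ Z) (hZ1 : Z ≤ 1)
    (hc : ∀ j, j ≠ i → ∀ L' ⊆ L, (({y | y ∈ T j ∧ ∀ l ∈ L', P l y}.ncard : ℕ) : ℝ) ≤
      A ^ L'.card * max (1 / ∏ l ∈ L', (l : ℝ)) Z * (T j).card) :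
    (({x : Fin k → α | x i = x₀ ∧ (∀ j, j ≠ i → x j ∈ T j) ∧
      ∀ l ∈ L, ∃ j, j ≠ i ∧ P l (x j)}.ncard : ℕ) : ℝ) ≤
      ((k : ℝ) * A) ^ L.card * max (1 / ∏ l ∈ L, (l : ℝ)) Z *
        ∏ j ∈ Finset.univ.erase i, ((T j).card : ℝ) := by
  classical
  set S : Set (Fin k → α) := {x : Fin k → α | x i = x₀ ∧ (∀ j, j ≠ i → x j ∈ T j) ∧
      ∀ l ∈ L, ∃ j, j ≠ i ∧ P l (x j)} with hS
  obtain ⟨B, hB⟩ : ∃ B : (L → Fin k) → Finset (Fin k → α), ∀ a, B a =
      if (∀ l, a l ≠ i) then Fintype.piFinset (fun j => if j = i then {x₀} else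
        (T j).filter (fun y => ∀ l : L, a l = j → P l y)) else ∅ := ⟨_, fun _ => rfl⟩
  have hsub : S ⊆ ((Finset.univ.biUnion B : Finset (Fin k → α)) : Set (Fin k → α)) := by
    rintro x ⟨hx0, hxT, hxP⟩
    have h1 : ∀ l : L, ∃ j, j ≠ i ∧ P l (x j) := fun l => hxP l.1 l.2
    choose a ha1 ha2 using h1
    rw [Finset.mem_coe, Finset.mem_biUnion]
    refine ⟨a, Finset.mem_univ _, ?_⟩
    rw [hB, if_pos ha1, Fintype.mem_piFinset]
    intro j
    by_cases hj : j = i
    · rw [if_pos hj, Finset.mem_singleton, hj]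
      exact hx0
    · rw [if_neg hj, Finset.mem_filter]
      refine ⟨hxT j hj, fun l hl => ?_⟩
      have := ha2 l
      rwa [hl] at this
  have h1 : (S.ncard : ℝ) ≤ ∑ a, ((B a).card : ℝ) := by
    have e1 : S.ncard ≤ (Finset.univ.biUnion B).card := by
      rw [← Set.ncard_coe_finset]
      exact Set.ncard_le_ncard hsub (Finset.finite_toSet _)
    have e2 : (Finset.univ.biUnion B).card ≤ ∑ a, (B a).card := Finset.card_biUnion_le
    exact_mod_cast e1.trans e2
  have hprodL : (0 : ℝ) < ∏ l ∈ L, (l : ℝ) := Finset.prod_pos fun l hl => by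
    have := hL l hl
    exact_mod_cast this
  have hM0 : 0 ≤ max (1 / ∏ l ∈ L, (l : ℝ)) Z := le_max_of_le_right hZ0
  have hT0 : 0 ≤ ∏ j ∈ Finset.univ.erase i, ((T j).card : ℝ) :=
    Finset.prod_nonneg fun j _ => Nat.cast_nonneg _
  have h2 : ∀ a, ((B a).card : ℝ) ≤ A ^ L.card * max (1 / ∏ l ∈ L, (l : ℝ)) Z *
      ∏ j ∈ Finset.univ.erase i, ((T j).card : ℝ) := by
    intro a
    by_cases ha : ∀ l, a l ≠ i
    · rw [hB, if_pos ha, Fintype.card_piFinset,
        ← Finset.mul_prod_erase Finset.univ _ (Finset.mem_univ i), if_pos rfl,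
        Finset.card_singleton, one_mul, Nat.cast_prod]
      -- the fibres
      obtain ⟨F, hF⟩ : ∃ F : Fin k → Finset L, ∀ j, F j = Finset.univ.filter fun l => a l = j :=
        ⟨_, fun _ => rfl⟩
      have hb : ∀ j ∈ Finset.univ.erase i, (((if j = i then ({x₀} : Finset α) else
          (T j).filter (fun y => ∀ l : L, a l = j → P l y)).card : ℕ) : ℝ) ≤
          A ^ (F j).card * max (1 / ∏ l ∈ F j, ((l : ℕ) : ℝ)) Z * (T j).card := by
        intro j hj
        have hji : j ≠ i := (Finset.mem_erase.1 hj).1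
        rw [if_neg hji]
        have h3 := hc j hji ((F j).map (Function.Embedding.subtype _)) (by
          intro l hl
          rw [Finset.mem_map] at hl
          obtain ⟨l', -, rfl⟩ := hl
          exact l'.2)
        rw [Finset.card_map, Finset.prod_map] at h3
        refine le_trans (le_of_eq ?_) h3
        congr 1
        rw [← Set.ncard_coe_finset]
        congr 1
        ext y
        simp only [Finset.coe_filter, Set.mem_setOf_eq, Finset.mem_map, hF, Finset.mem_filter,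
          Finset.mem_univ, true_and, Function.Embedding.subtype_apply]
        constructor
        · rintro ⟨hy, h4⟩
          refine ⟨hy, ?_⟩
          rintro l ⟨l', hl', rfl⟩
          exact h4 l' hl'
        · rintro ⟨hy, h4⟩
          exact ⟨hy, fun l hl => h4 l ⟨l, hl, rfl⟩⟩
      refine (Finset.prod_le_prod (fun j _ => Nat.cast_nonneg _) hb).trans ?_
      rw [Finset.prod_mul_distrib, Finset.prod_mul_distrib]
      refine mul_le_mul_of_nonneg_right ?_ hT0
      have hmaps : ∀ l ∈ (Finset.univ : Finset L), a l ∈ Finset.univ.erase i := fun l _ =>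
        Finset.mem_erase.2 ⟨ha l, Finset.mem_univ _⟩
      have hcard : ∏ j ∈ Finset.univ.erase i, A ^ (F j).card = A ^ L.card := by
        rw [Finset.prod_pow_eq_pow_sum]
        congr 1
        have h5 := Finset.card_eq_sum_card_fiberwise hmaps
        rw [Finset.card_univ, Fintype.card_coe] at h5
        rw [h5]
        exact Finset.sum_congr rfl fun j _ => by rw [hF]
      have hpr : ∏ j ∈ Finset.univ.erase i, (1 / ∏ l ∈ F j, ((l : ℕ) : ℝ)) =
          1 / ∏ l ∈ L, (l : ℝ) := by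
        rw [Finset.prod_div_distrib, Finset.prod_const_one]
        congr 1
        have h6 := Finset.prod_fiberwise_of_maps_to hmaps (fun l : L => ((l : ℕ) : ℝ))
        have h7 : ∏ l : L, ((l : ℕ) : ℝ) = ∏ l ∈ L, (l : ℝ) :=
          Finset.prod_coe_sort L fun l => (l : ℝ)
        rw [← h7, ← h6]
        exact Finset.prod_congr rfl fun j _ => by rw [hF]
      rw [hcard]
      refine mul_le_mul_of_nonneg_left ?_ (pow_nonneg hA _)
      refine (prod_max_le (Finset.univ.erase i) (fun j => 1 / ∏ l ∈ F j, ((l : ℕ) : ℝ)) Z hZ0 hZ1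
        ?_ ?_).trans (le_of_eq ?_)
      · intro j _
        exact div_nonneg zero_le_one (Finset.prod_nonneg fun l _ => Nat.cast_nonneg _)
      · intro j _
        have h8 : (1 : ℝ) ≤ ∏ l ∈ F j, ((l : ℕ) : ℝ) := by
          have : ∀ l ∈ F j, (1 : ℝ) ≤ ((l : ℕ) : ℝ) := fun l _ => by
            have := hL l.1 l.2
            exact_mod_cast this
          calc (1 : ℝ) = ∏ l ∈ F j, (1 : ℝ) := by rw [Finset.prod_const_one]
            _ ≤ _ := Finset.prod_le_prod (fun _ _ => zero_le_one) this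
        rw [div_le_one (by linarith)]
        exact h8
      · rw [hpr]
    · rw [hB, if_neg ha, Finset.card_empty, Nat.cast_zero]
      exact mul_nonneg (mul_nonneg (pow_nonneg hA _) hM0) hT0
  calc (S.ncard : ℝ) ≤ ∑ a, ((B a).card : ℝ) := h1
    _ ≤ ∑ _a : L → Fin k, A ^ L.card * max (1 / ∏ l ∈ L, (l : ℝ)) Z *
      ∏ j ∈ Finset.univ.erase i, ((T j).card : ℝ) := Finset.sum_le_sum fun a _ => h2 a
    _ = ((k : ℝ) * A) ^ L.card * max (1 / ∏ l ∈ L, (l : ℝ)) Z *
        ∏ j ∈ Finset.univ.erase i, ((T j).card : ℝ) := by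
      rw [Finset.sum_const, Finset.card_univ, Fintype.card_fun, Fintype.card_fin, Fintype.card_coe,
        nsmul_eq_mul, Nat.cast_pow, mul_pow]
      ring

end Pool.Agent.Helper84.XV
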