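import Pool.Agent.Helper86.EXO.Share

/-!
# XV: the share of `vv u` in arbitrary sets between the ordinary part and `traceSet`
-/

set_option autoImplicit false

open Polynomial

namespace Pool.Agent.Helper84.XV

open Pool.Agent.Helper84.AA
open Pool.Agent.Helper84.EXO (vv)

theorem ncard_pi {α : Type*} {k : ℕ} (S : Fin k → Set α) (hf : ∀ j, (S j).Finite) :
    {h : Fin k → α | ∀ j, h j ∈ S j}.ncard = ∏ j, (S j).ncard := by
  classical
  have h1 : {h : Fin k → α | ∀ j, h j ∈ S j} =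
      ((Fintype.piFinset fun j => (hf j).toFinset : Finset (Fin k → α)) : Set (Fin k → α)) := by
    ext h
    simp [Fintype.mem_piFinset]
  rw [h1, Set.ncard_coe_finset, Fintype.card_piFinset]
  exact Finset.prod_congr rfl fun j _ => (Set.ncard_eq_toFinset_card (S j) (hf j)).symm

theorem ncard_pi_and {α : Type*} {k : ℕ} (S : Fin k → Set α) (hf : ∀ j, (S j).Finite) (i : Fin k)
    (E : Set α) : {h : Fin k → α | (∀ j, h j ∈ S j) ∧ h i ∈ E}.ncard =
      (S i ∩ E).ncard * ∏ j ∈ Finset.univ.erase i, (S j).ncard := by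
  classical
  have h1 : {h : Fin k → α | (∀ j, h j ∈ S j) ∧ h i ∈ E} =
      {h : Fin k → α | ∀ j, h j ∈ Function.update S i (S i ∩ E) j} := by
    ext h
    constructor
    · rintro ⟨h1, h2⟩ j
      by_cases hj : j = i
      · subst hj
        rw [Function.update_self]
        exact ⟨h1 j, h2⟩
      · rw [Function.update_of_ne hj]
        exact h1 j
    · intro h1
      refine ⟨fun j => ?_, ?_⟩
      · by_cases hj : j = i
        · subst hj
          have := h1 j
          rw [Function.update_self] at this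
          exact this.1
        · have := h1 j
          rwa [Function.update_of_ne hj] at this
      · have := h1 i
        rw [Function.update_self] at this
        exact this.2
  rw [h1, ncard_pi _ (fun j => ?_), ← Finset.mul_prod_erase Finset.univ _ (Finset.mem_univ i),
    Function.update_self]
  · congr 1
    refine Finset.prod_congr rfl fun j hj => ?_
    rw [Function.update_of_ne (Finset.mem_erase.1 hj).1]
  · by_cases hj : j = i
    · subst hj
      rw [Function.update_self]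
      exact (hf j).subset Set.inter_subset_left
    · rw [Function.update_of_ne hj]
      exact hf j

theorem share_T : ∃ G : ℕ, ∀ q : ℕ, 16 ≤ q → ∀ p : ℕ, p.Prime → p ∣ q →
    ∀ (k : ℕ) (g : Fin k → ℕ) (i : Fin k), G ≤ g i → ∀ S : Fin k → Set ℤ[X],
    (∀ j, {h ∈ traceSet q (g j) | ¬ (p : ℤ) ∣ h.coeff 0} ⊆ S j ∧ S j ⊆ traceSet q (g j)) →
    (({h : Fin k → ℤ[X] | ∀ j, h j ∈ S j}.ncard : ℕ) : ℝ) ≤ (q : ℝ) ^ (9 * g i) *
      (({h : Fin k → ℤ[X] | (∀ j, h j ∈ S j) ∧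
        ∃ u, IsTrace q (g i - 4) u ∧ h i = vv q * u}.ncard : ℕ) : ℝ) := by
  obtain ⟨G1, hG1⟩ := Pool.Agent.Helper86.EXO3.share_ord
  obtain ⟨G2, hG2⟩ := Pool.Agent.Helper86.EXO3.ord_third
  refine ⟨max (max G1 G2) 1, fun q hq p hp hpq k g i hi S hS => ?_⟩
  have hi1 : G1 ≤ g i := le_trans (le_trans (le_max_left _ _) (le_max_left _ _)) hi
  have hi2 : G2 ≤ g i := le_trans (le_trans (le_max_right _ _) (le_max_left _ _)) hi
  have hi3 : 1 ≤ g i := le_trans (le_max_right _ _) hi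
  have hq1 : (16 : ℝ) ≤ q := by exact_mod_cast hq
  have hfin : ∀ j, (S j).Finite := fun j => (traceSet_finite q (g j)).subset (hS j).2
  set E : Set ℤ[X] := {h | ∃ u, IsTrace q (g i - 4) u ∧ h = vv q * u} with hE
  set O : Set ℤ[X] := {h ∈ traceSet q (g i) | ¬ (p : ℤ) ∣ h.coeff 0} with hO
  have hOfin : O.Finite := (traceSet_finite q (g i)).subset fun h hh => hh.1
  -- one coordinate
  have h1 : (O.ncard : ℝ) ≤ (q : ℝ) ^ (8 * g i) * ((O ∩ E).ncard : ℝ) := by
    have h2 := hG1 q hq p hp hpq 1 (fun _ => g i) 0 hi1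
    have e1 : {h : Fin 1 → ℤ[X] | ∀ j, h j ∈ traceSet q (g i) ∧ ¬ (p : ℤ) ∣ (h j).coeff 0} =
        {h : Fin 1 → ℤ[X] | ∀ j, h j ∈ (fun _ : Fin 1 => O) j} := rfl
    have e2 : {h : Fin 1 → ℤ[X] | (∀ j, h j ∈ traceSet q (g i) ∧ ¬ (p : ℤ) ∣ (h j).coeff 0) ∧
        ∃ u, IsTrace q (g i - 4) u ∧ h 0 = vv q * u} =
        {h : Fin 1 → ℤ[X] | (∀ j, h j ∈ (fun _ : Fin 1 => O) j) ∧ h 0 ∈ E} := rfl
    rw [e1, e2, ncard_pi _ (fun _ => hOfin), ncard_pi_and _ (fun _ => hOfin)] at h2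
    simpa using h2
  have h2 : ((S i).ncard : ℝ) ≤ (q : ℝ) ^ (9 * g i) * ((S i ∩ E).ncard : ℝ) := by
    have a1 : ((S i).ncard : ℝ) ≤ ((traceSet q (g i)).ncard : ℝ) := by
      exact_mod_cast Set.ncard_le_ncard (hS i).2 (traceSet_finite q (g i))
    have a2 : ((traceSet q (g i)).ncard : ℝ) ≤ 3 * (O.ncard : ℝ) := hG2 q hq p hp (g i) hi2
    have a3 : ((O ∩ E).ncard : ℝ) ≤ ((S i ∩ E).ncard : ℝ) := by
      exact_mod_cast Set.ncard_le_ncard (Set.inter_subset_inter_left E (hS i).1)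
        ((hfin i).subset Set.inter_subset_left)
    have a4 : (3 : ℝ) ≤ (q : ℝ) ^ (g i) := by
      calc (3 : ℝ) ≤ q := by linarith
        _ = (q : ℝ) ^ 1 := (pow_one _).symm
        _ ≤ (q : ℝ) ^ (g i) := pow_le_pow_right₀ (by linarith) hi3
    calc ((S i).ncard : ℝ) ≤ 3 * (O.ncard : ℝ) := a1.trans a2
      _ ≤ 3 * ((q : ℝ) ^ (8 * g i) * ((O ∩ E).ncard : ℝ)) := by linarith
      _ ≤ (q : ℝ) ^ (g i) * ((q : ℝ) ^ (8 * g i) * ((S i ∩ E).ncard : ℝ)) := by
        refine mul_le_mul a4 ?_ (by positivity) (by positivity)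
        exact mul_le_mul_of_nonneg_left a3 (by positivity)
      _ = (q : ℝ) ^ (9 * g i) * ((S i ∩ E).ncard : ℝ) := by
        rw [← mul_assoc, ← pow_add]
        congr 2
        ring
  have e3 : {h : Fin k → ℤ[X] | (∀ j, h j ∈ S j) ∧
      ∃ u, IsTrace q (g i - 4) u ∧ h i = vv q * u} =
      {h : Fin k → ℤ[X] | (∀ j, h j ∈ S j) ∧ h i ∈ E} := rfl
  rw [e3, ncard_pi _ hfin, ncard_pi_and _ hfin, ← Finset.mul_prod_erase Finset.univ _ (Finset.mem_univ i)]
  push_cast
  rw [← mul_assoc]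
  exact mul_le_mul_of_nonneg_right h2 (Finset.prod_nonneg fun j _ => Nat.cast_nonneg _)

end Pool.Agent.Helper84.XV
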